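import Pool.Agent.V8H78.EX.Win
import Pool.Agent.R482.ST.Mills
import Pool.Agent.Results.MP_bd895b_nt.RandomOrbits

/-!
# Zero-cycles on the twists by integers which are divisible to an odd power by a prime of each of finitely
many sets of primes with a positive proportion of the primes in all windows (helper78)

The proof of `Pool.Agent.N676.OR.zc_once` (helper676) with the windows of `Pool.Agent.V8H78.EX.Win`, and the
reduction to squarefree integers by the map `x ↦ t x ^ (m / 2)`.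
-/

set_option autoImplicit false
set_option linter.unusedSectionVars false

namespace Pool.Agent.V8H78.EX

open Finset Polynomial Pool.Agent.R925.FD Pool.Agent.R925.ZC
open Pool.Agent.N676.OR (Hit norm_once)
open Pool.Agent.W401.Cheb Pool.Agent.W723.SecC
open Pool.Agent.Results.MP_bd895b_nt.LocalGlobalComplexOfTwists (Admissible OfPersistentClass)
open Pool.Agent.Results.MP_bd895b_nt.RandomOrbits (Good)

section once

variable {K : Type} [Fintype K] [DecidableEq K] {b : ℤ} {g : K → ℤ[X]} {h : ℤ[X]}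

/-- **The theorem on adelic zero-cycles.** -/
theorem zc_rich (hb : b ≠ 0) (hg0 : ∀ k, g k ≠ 0) (hh1 : 1 ≤ h.natDegree)
    (hdeg : ∀ k, 2 ∣ (g k).natDegree)
    (hgg : ∀ k l, k ≠ l →
      IsCoprime ((g k).map (Int.castRingHom ℚ)) ((g l).map (Int.castRingHom ℚ)))
    (hgh : ∀ k, IsCoprime (h.map (Int.castRingHom ℚ)) ((g k).map (Int.castRingHom ℚ))) :
    ∃ PP : Set (Set ℕ), PP.Finite ∧ (∀ P ∈ PP, ∃ c : ℝ, 0 < c ∧ Rich c P) ∧
      ∀ a : ℤ, (∀ P ∈ PP, Hit P a) →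
      ∀ m, Even m → m ∣ h.natDegree → ∀ (d : ℤ) (Z : AdelicCycle m b a g h), Z.Parity d →
        Z.Orthogonal → OfPersistentClass d Z := by
  classical
  have hh0 : h ≠ 0 := by
    rintro rfl
    rw [natDegree_zero] at hh1
    omega
  obtain ⟨N, hNpos, hgood⟩ := exists_good b hb g h hg0 hh0 hgg hgh
  set D : Finset ℤ := (Finset.Icc (-(N : ℤ)) N).filter (fun s => s ≠ 0) with hD
  have hD0 : ∀ s ∈ D, s ≠ 0 := fun s hs => (mem_filter.1 hs).2
  set Δ : Finset ((K → ℤ) × ℤ) := ((Fintype.piFinset fun _ : K => D) ×ˢ ({0, 1} : Finset ℤ)).filter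
    (fun s => ¬ ZPersistent s.2 g h (fun k => (s.1 k : ℚ))) with hΔ
  -- for each class there are many primes
  have hex : ∀ s ∈ Δ, ∃ P : Set ℕ, (∃ c : ℝ, 0 < c ∧ Rich c P) ∧ ∀ p ∈ P, ∀ _ : Fact p.Prime,
      ¬ p ∣ N ∧ ¬ ZR p s.2 g h s.1 := by
    intro s hs
    rw [hΔ, mem_filter, mem_product, Fintype.mem_piFinset] at hs
    obtain ⟨⟨hsD, -⟩, hnp⟩ := hs
    unfold ZPersistent at hnp
    push Not at hnp
    obtain ⟨σ, hσ⟩ := hnp
    obtain ⟨L, iF, iN, iG, τ, m, hm, hL⟩ := chebZ s.2 b g h hh0 hh1 hdeg N hNpos hgood s.1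
      (fun k => hD0 _ (hsD k)) σ (by
        intro S h1 h2 h3
        obtain ⟨k, hk⟩ := hσ S h3 (fun β hβ => ⟨h1 β hβ, h2 β hβ⟩)
        refine ⟨k, fun y hy => ?_⟩
        have h4 := hk y hy
        rw [Rat.cast_intCast] at h4
        exact h4)
    refine ⟨frobSet L τ (m * N), frob_rich L τ (m * N) (Nat.mul_pos hm hNpos), fun p hp _ => ?_⟩
    exact ⟨fun h4 => hp.2.1 (h4.trans (Dvd.intro_left _ rfl)),
      hL p ⟨hp.1, fun h4 => hp.2.1 (h4.trans (Dvd.intro _ rfl)), hp.2.2⟩⟩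
  choose! P hPbig hP using hex
  refine ⟨P '' (Δ : Set ((K → ℤ) × ℤ)), Δ.finite_toSet.image P, ?_, ?_⟩
  · rintro _ ⟨s, hs, rfl⟩
    exact hPbig s hs
  · intro a hhit m hm hmh d Z hodd hZ
    by_contra hno
    obtain ⟨n, hn1, hn2, hn3, hn4⟩ := class_of_orthogonal hb hg0 hh0 hdeg hgg hgh Z hodd hZ
    have hnd : ∀ k, ∀ p : ℕ, p.Prime → ¬ p ∣ N → ¬ (p : ℤ) ∣ n k := by
      intro k p hp hpN
      have hpF : Fact p.Prime := ⟨hp⟩
      exact not_dvd_of_sq (hgood p hpN) hdeg (Z.pa ⟨p, hp⟩) k (hn1 k) (hn4 k ⟨p, hp⟩)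
    have hsΔ : (n, d % 2) ∈ Δ := by
      rw [hΔ, mem_filter, mem_product, Fintype.mem_piFinset]
      refine ⟨⟨fun k => ?_, ?_⟩, fun hper => hno ⟨n, hn1, hn2, ?_, hn3, hn4⟩⟩
      · change n k ∈ D
        rw [hD, mem_filter, Finset.mem_Icc]
        have h3 := Nat.le_of_dvd hNpos (dvd_of_primes (hn1 k) hNpos (hnd k))
        refine ⟨⟨by omega, by omega⟩, (hn1 k).ne_zero⟩
      · rw [Finset.mem_insert, Finset.mem_singleton]
        change d % 2 = 0 ∨ d % 2 = 1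
        omega
      · intro σ
        obtain ⟨S, hS1, hS2, hS3⟩ := hper σ
        exact ⟨S, hS1.trans (even_emod d), hS2, hS3⟩
    obtain ⟨p, hpP, hpp, hpa, hpa2⟩ := hhit (P (n, d % 2)) ⟨_, hsΔ, rfl⟩
    have hpF : Fact p.Prime := ⟨hpp⟩
    obtain ⟨hpN, hR⟩ := hP _ hsΔ p hpP hpF
    apply hR
    exact reducesZ (hgood p hpN) hdeg hm hmh (norm_once hpa hpa2) (Z.pa ⟨p, hpF.out⟩)
      ((hodd.2 ⟨p, hpF.out⟩).trans (even_emod d).symm) n (fun k => hnd k p hpF.out hpN)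
      (fun k => hn4 k ⟨p, hpF.out⟩)

end once

section push

variable {K : Type} [Fintype K] [DecidableEq K] {b s t : ℤ} {g : K → ℤ[X]} {h : ℤ[X]} {m : ℕ}

/-- the image of a point under `x ↦ t x ^ (m / 2)` -/
def pushPt (hm : Even m) {F : Type} [Field F] (P : Point m b (s * t ^ 2) g h F) :
    Point 2 b s g h F where
  z := P.z
  w := P.w
  x := t * P.x ^ (m / 2)
  y := P.y
  ne := P.ne
  eq₁ := P.eq₁
  eq₂ := by
    obtain ⟨k, hk⟩ := hm
    have h1 : m / 2 * 2 = m := by omega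
    rw [← P.eq₂]
    push_cast
    rw [mul_pow, ← pow_mul, h1]
    ring

/-- the direct image of a zero-cycle -/
def push (hm : Even m) {F : Type} [Field F] (Z : Cycle m b (s * t ^ 2) g h F) :
    Cycle 2 b s g h F where
  r := Z.r
  E := Z.E
  fld := Z.fld
  alg := Z.alg
  fin := Z.fin
  pt i := pushPt hm (Z.pt i)
  c := Z.c

/-- the direct image of an adelic zero-cycle -/
noncomputable def pushA (hm : Even m) (Z : AdelicCycle m b (s * t ^ 2) g h) :
    AdelicCycle 2 b s g h :=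
  ⟨push hm Z.re, fun p => push hm (Z.pa p)⟩

lemma pushA_parity (hm : Even m) (Z : AdelicCycle m b (s * t ^ 2) g h) {d : ℤ} (hZ : Z.Parity d) :
    (pushA hm Z).Parity d := hZ

lemma pushA_orth (hm : Even m) (Z : AdelicCycle m b (s * t ^ 2) g h) (hZ : Z.Orthogonal) :
    (pushA hm Z).Orthogonal := hZ

lemma pushA_class (hm : Even m) (Z : AdelicCycle m b (s * t ^ 2) g h) {d : ℤ}
    (hZ : OfPersistentClass d (pushA hm Z)) : OfPersistentClass d Z := hZ

end push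

/-- a prime of `P` divides `a` to an odd power -/
def OddHit (P : Set ℕ) (a : ℤ) : Prop := ∃ p ∈ P, p.Prime ∧ Odd (padicValInt p a)

lemma hit_of_odd {P : Set ℕ} {s t : ℤ} (hs : Squarefree s) (ht : t ≠ 0)
    (h : OddHit P (s * t ^ 2)) : Hit P s := by
  obtain ⟨p, hpP, hp, ho⟩ := h
  haveI : Fact p.Prime := ⟨hp⟩
  refine ⟨p, hpP, hp, ?_⟩
  have hs0 : s ≠ 0 := hs.ne_zero
  have h1 : padicValInt p (s * t ^ 2) = padicValInt p s + 2 * padicValInt p t := by
    rw [padicValInt.mul hs0 (pow_ne_zero 2 ht), pow_two, padicValInt.mul ht ht]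
    ring
  rw [h1] at ho
  have h2 : padicValInt p s ≠ 0 := by
    intro h0
    rw [h0, zero_add] at ho
    exact (Nat.not_odd_iff_even.2 (even_two_mul _)) ho
  have hdvd : (p : ℤ) ∣ s := by
    have := (padicValInt_dvd_iff (p := p) 1 s).2 (Or.inr (Nat.one_le_iff_ne_zero.2 h2))
    rwa [pow_one] at this
  refine ⟨hdvd, fun hd => ?_⟩
  have h3 := hs (p : ℤ) (by rwa [← pow_two])
  exact hp.one_lt.ne' (by simpa using Int.isUnit_iff_natAbs_eq.1 h3)

theorem good_odd {r : ℕ} {b : ℤ} {g : Fin r → ℤ[X]} {h : ℤ[X]} (hA : Admissible b g h) :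
    ∃ PP : Set (Set ℕ), PP.Finite ∧ (∀ P ∈ PP, ∃ c : ℝ, 0 < c ∧ Rich c P) ∧
      ∀ a : ℤ, a ≠ 0 → (∀ P ∈ PP, OddHit P a) → Good b g h a := by
  classical
  obtain ⟨PP, h1, h2, h3⟩ := zc_rich hA.b_ne hA.g_ne hA.h_deg hA.deg hA.coprime hA.coprime_h
  refine ⟨PP, h1, h2, fun a ha hodd => ?_⟩
  obtain ⟨s, t, h4, h5, rfl⟩ := Pool.Agent.R482.ST.sf_decomp a ha
  have ht : t ≠ 0 := by omega
  have hhit : ∀ P ∈ PP, Hit P s := fun P hP => hit_of_odd h4 ht (hodd P hP)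
  have hper : ∀ m : ℕ, Even m → m ∣ h.natDegree → ∀ (d : ℤ)
      (Y : AdelicCycle m b (s * t ^ 2) g h), Y.Parity d → Y.Orthogonal →
      OfPersistentClass d Y := by
    intro m hm hmh d Y hd hY
    refine pushA_class hm Y (h3 s hhit 2 even_two ?_ d (pushA hm Y) (pushA_parity hm Y hd)
      (pushA_orth hm Y hY))
    obtain ⟨k, hk⟩ := hm
    exact (Dvd.intro k (by omega)).trans hmh
  refine ⟨fun m _ hm hmh d Y hd hY => hper m hm hmh d Y hd hY, ?_⟩
  intro α₁ α₂ hz m hm0 hm hmh d Y hd hY hu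
  obtain ⟨n', hn1', hn2, hn3, hn4, hn5⟩ := hper m hm hmh d Y hd hY
  obtain ⟨z, hz1, hz2⟩ := realize (m := m) (a := s * t ^ 2) hm0 hA.b_ne hz
    (fun k => g_ne hA.h_deg hA.coprime_h ((hz α₁).2 (Or.inl rfl)) k)
    (fun k => g_ne hA.h_deg hA.coprime_h ((hz α₂).2 (Or.inr rfl)) k) hu _ hn2 hn3
  exact ⟨z, hz1, fun k => same_aux (hn1' k).ne_zero (hn4 k) (hz2 k).2,
    fun k p => same_aux (hn1' k).ne_zero (hn5 k p) (hz2 k).2⟩

end Pool.Agent.V8H78.EX
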