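import Pool.Agent.V8H78.EX.Win
import Mathlib.NumberTheory.Padics.PadicVal.Basic
import Mathlib.NumberTheory.Primorial
import Mathlib.Combinatorics.Enumerative.Catalan
import Mathlib.Data.Nat.Factorial.SuperFactorial

/-!
# Integers which are divisible to an odd power by almost all the primes of a window (helper78)
-/

set_option autoImplicit false

open Filter Topology Finset

namespace Pool.Agent.V8H78.EX

/-- the primes in `(x, κ x]` -/
def primesIn (κ : ℝ) (x : ℕ) : Set ℕ := {p | p.Prime ∧ x < p ∧ (p : ℝ) ≤ κ * x}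

/-- the hypothesis on a property of nonzero integers -/
def Rule (G : ℤ → Prop) : Prop :=
  ∃ PP : Set (Set ℕ), PP.Finite ∧ (∀ P ∈ PP, ∃ c : ℝ, 0 < c ∧ Rich c P) ∧
    ∀ a : ℤ, a ≠ 0 → (∀ P ∈ PP, ∃ p ∈ P, p.Prime ∧ Odd (padicValInt p a)) → G a

lemma Rich.mono {c c' : ℝ} {P : Set ℕ} (h : Rich c P) (hc : c' ≤ c) : Rich c' P := by
  intro κ hκ
  obtain ⟨x₀, hx₀⟩ := h κ hκ
  refine ⟨x₀, fun x hx => ?_⟩
  obtain ⟨h1, h2⟩ := hx₀ x hx
  exact ⟨h1, (mul_le_mul_of_nonneg_right hc h1.le).trans h2⟩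

lemma win_univ (κ : ℝ) (x : ℕ) : win Set.univ κ x = primesIn κ x := by
  ext p
  constructor
  · rintro ⟨h1, -, h2, h3⟩
    exact ⟨h1, h2, h3⟩
  · rintro ⟨h1, h2, h3⟩
    exact ⟨h1, Set.mem_univ _, h2, h3⟩

lemma primesIn_finite (κ : ℝ) (x : ℕ) : (primesIn κ x).Finite := by
  rw [← win_univ]
  exact win_finite _ _ _

/-- **The rule of the windows.** -/
theorem crit {G : ℤ → Prop} (h : Rule G) : ∃ c : ℝ, 0 < c ∧ ∀ κ : ℝ, 1 < κ → ∃ x₀ : ℕ, ∀ x : ℕ,
    x₀ ≤ x → ∀ a : ℤ, a ≠ 0 →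
      (({p ∈ primesIn κ x | ¬ Odd (padicValInt p a)}.ncard : ℕ) : ℝ) ≤
        c * ((primesIn κ x).ncard : ℝ) → G a := by
  obtain ⟨PP, hfin, hrich, hG⟩ := h
  have h1 : ∃ c : ℝ, 0 < c ∧ ∀ P ∈ PP, Rich c P := by
    have h2 : ∀ P ∈ PP, ∀ᶠ c : ℝ in 𝓝[>] 0, Rich c P := by
      intro P hP
      obtain ⟨c, hc, hr⟩ := hrich P hP
      filter_upwards [Ioo_mem_nhdsGT hc] with c' hc'
      exact hr.mono hc'.2.le
    have h3 := (Filter.eventually_all_finite hfin).2 h2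
    obtain ⟨c, hc1, hc2⟩ := (h3.and self_mem_nhdsWithin).exists
    exact ⟨c, hc2, hc1⟩
  obtain ⟨c, hc, hall⟩ := h1
  refine ⟨c / 2, by positivity, fun κ hκ => ?_⟩
  have h2 : ∀ P ∈ PP, ∀ᶠ x : ℕ in atTop, 0 < ((win Set.univ κ x).ncard : ℝ) ∧
      c * ((win Set.univ κ x).ncard : ℝ) ≤ ((win P κ x).ncard : ℝ) := by
    intro P hP
    obtain ⟨x₀, hx₀⟩ := hall P hP κ hκ
    exact eventually_atTop.2 ⟨x₀, hx₀⟩
  obtain ⟨x₀, hx₀⟩ := eventually_atTop.1 ((Filter.eventually_all_finite hfin).2 h2)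
  refine ⟨x₀, fun x hx a ha hbad => hG a ha fun P hP => ?_⟩
  obtain ⟨h3, h4⟩ := hx₀ x hx P hP
  rw [win_univ] at h3 h4
  have h5 : ({p ∈ primesIn κ x | ¬ Odd (padicValInt p a)}).ncard < (win P κ x).ncard := by
    have : (({p ∈ primesIn κ x | ¬ Odd (padicValInt p a)}.ncard : ℕ) : ℝ) <
        ((win P κ x).ncard : ℝ) := by
      refine hbad.trans_lt (lt_of_lt_of_le ?_ h4)
      nlinarith
    exact_mod_cast this
  obtain ⟨p, hp1, hp2⟩ := Set.exists_mem_notMem_of_ncard_lt_ncard h5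
    ((primesIn_finite κ x).subset (Set.sep_subset _ _))
  obtain ⟨q1, q2, q3, q4⟩ := hp1
  refine ⟨p, q2, q1, ?_⟩
  by_contra h6
  exact hp2 ⟨⟨q1, q3, q4⟩, h6⟩

/-- all the primes between `θ₁ n` and `θ₂ n` -/
theorem lin {G : ℤ → Prop} (h : Rule G) {θ₁ θ₂ : ℝ} (h1 : 0 < θ₁) (h2 : θ₁ < θ₂) (U : ℝ) :
    ∃ n₀ : ℕ, ∀ n : ℕ, n₀ ≤ n → ∀ a : ℤ, a ≠ 0 →
      (∀ p : ℕ, p.Prime → θ₁ * n < p → (p : ℝ) ≤ θ₂ * n → U < p → Odd (padicValInt p a)) → G a := by
  obtain ⟨c, hc, hcr⟩ := crit h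
  set κ : ℝ := (θ₁ + θ₂) / (2 * θ₁) with hκ
  have hκ1 : 1 < κ := by
    rw [hκ, one_lt_div (by positivity)]
    linarith
  obtain ⟨x₀, hx₀⟩ := hcr κ hκ1
  have e1 : Tendsto (fun n : ℕ => θ₁ * (n : ℝ)) atTop atTop :=
    Tendsto.const_mul_atTop h1 tendsto_natCast_atTop_atTop
  have e2 : Tendsto (fun n : ℕ => (θ₂ - θ₁) * (n : ℝ)) atTop atTop :=
    Tendsto.const_mul_atTop (by linarith) tendsto_natCast_atTop_atTop
  obtain ⟨n₀, hn₀⟩ := eventually_atTop.1 ((e1.eventually_ge_atTop (max (x₀ : ℝ) U)).and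
    (e2.eventually_ge_atTop (2 * κ)))
  refine ⟨n₀, fun n hn a ha hall => ?_⟩
  obtain ⟨g1, g2⟩ := hn₀ n hn
  set x : ℕ := ⌈θ₁ * (n : ℝ)⌉₊ with hx
  have hx1 : θ₁ * n ≤ x := Nat.le_ceil _
  have hx2 : (x : ℝ) < θ₁ * n + 1 := Nat.ceil_lt_add_one (by positivity)
  refine hx₀ x ?_ a ha ?_
  · have : (x₀ : ℝ) ≤ x := (le_max_left _ _).trans (g1.trans hx1)
    exact_mod_cast this
  · have hempty : {p ∈ primesIn κ x | ¬ Odd (padicValInt p a)} = ∅ := by
      refine Set.eq_empty_iff_forall_notMem.2 ?_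
      rintro p ⟨⟨p1, p2, p3⟩, p4⟩
      have p2' : (x : ℝ) < p := by exact_mod_cast p2
      refine p4 (hall p p1 (hx1.trans_lt p2') (p3.trans ?_)
        (((le_max_right _ _).trans (g1.trans hx1)).trans_lt p2'))
      have h5 : κ * x ≤ κ * (θ₁ * n + 1) := mul_le_mul_of_nonneg_left hx2.le (by linarith)
      have h6 : κ * (θ₁ * n) = (θ₁ + θ₂) / 2 * n := by
        rw [hκ]
        field_simp
      nlinarith
    rw [hempty, Set.ncard_empty, Nat.cast_zero]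
    positivity

section val

lemma val_fact {p j : ℕ} (hp : p.Prime) (hj : j < p ^ 2) : padicValNat p j.factorial = j / p := by
  haveI : Fact p.Prime := ⟨hp⟩
  have hlog : Nat.log p j < 2 := by
    rcases Nat.eq_zero_or_pos j with rfl | h0
    · rw [Nat.log_zero_right]
      norm_num
    · exact Nat.log_lt_of_lt_pow h0.ne' hj
  rw [padicValNat_factorial hlog]
  simp

lemma val_fact_one {p n : ℕ} (hp : p.Prime) (h1 : p ≤ n) (h2 : n < 2 * p) :
    padicValNat p n.factorial = 1 := by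
  have h3 : n < p ^ 2 := by nlinarith [hp.two_le]
  rw [val_fact hp h3]
  exact Nat.div_eq_of_lt_le (by omega) (by omega)

lemma val_eq_one {p n : ℕ} (hp : p.Prime) (h0 : n ≠ 0) (h1 : p ∣ n) (h2 : ¬ p ^ 2 ∣ n) :
    padicValNat p n = 1 := by
  haveI : Fact p.Prime := ⟨hp⟩
  have h3 : 1 ≤ padicValNat p n := one_le_padicValNat_of_dvd h0 h1
  have h4 : ¬ 2 ≤ padicValNat p n := fun h => h2 ((padicValNat_dvd_iff_le h0).2 h)
  omega

/-- multiplication by `u` -/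
lemma val_mul {p : ℕ} (hp : p.Prime) {u : ℤ} (hu : u ≠ 0) (hup : (|u| : ℝ) < p) {a : ℤ}
    (ha : a ≠ 0) : padicValInt p (u * a) = padicValInt p a := by
  haveI : Fact p.Prime := ⟨hp⟩
  rw [padicValInt.mul hu ha]
  have : padicValInt p u = 0 := by
    refine padicValInt.eq_zero_of_not_dvd fun h => ?_
    have h1 := Int.le_of_dvd (abs_pos.2 hu) ((dvd_abs _ _).2 h)
    have h2 : (p : ℝ) ≤ (|u| : ℝ) := by exact_mod_cast h1
    linarith
  omega

/-- the least common multiple of `1, …, n` -/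
lemma val_lcm {p n : ℕ} (hp : p.Prime) (h1 : p ≤ n) (h2 : n < 2 * p) :
    padicValNat p ((Icc 1 n).lcm id) = 1 := by
  haveI : Fact p.Prime := ⟨hp⟩
  have hd : (Icc 1 n).lcm id ∣ n.factorial := by
    refine Finset.lcm_dvd fun j hj => ?_
    rw [Finset.mem_Icc] at hj
    exact Nat.dvd_factorial hj.1 hj.2
  have h0 : (Icc 1 n).lcm id ≠ 0 := ne_zero_of_dvd_ne_zero (Nat.factorial_ne_zero n) hd
  refine val_eq_one hp h0 (Finset.dvd_lcm (f := id) (Finset.mem_Icc.2 ⟨hp.one_lt.le, h1⟩))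
    fun h => ?_
  have h3 := (padicValNat_dvd_iff_le (Nat.factorial_ne_zero n)).1 (h.trans hd)
  rw [val_fact_one hp h1 h2] at h3
  omega

/-- the product of the primes up to `n` -/
lemma val_primorial {p n : ℕ} (hp : p.Prime) (h1 : p ≤ n) : padicValNat p (primorial n) = 1 := by
  haveI : Fact p.Prime := ⟨hp⟩
  have hmem : p ∈ (range (n + 1)).filter Nat.Prime :=
    Finset.mem_filter.2 ⟨Finset.mem_range.2 (by omega), hp⟩
  have e : primorial n = p * ∏ q ∈ ((range (n + 1)).filter Nat.Prime).erase p, q := by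
    unfold primorial
    rw [Finset.mul_prod_erase _ (fun q => q) hmem]
  have hnd : ¬ p ∣ ∏ q ∈ ((range (n + 1)).filter Nat.Prime).erase p, q := by
    intro h
    obtain ⟨q, hq, hpq⟩ := (Prime.dvd_finset_prod_iff hp.prime _).1 h
    rw [Finset.mem_erase, Finset.mem_filter] at hq
    exact hq.1 ((Nat.prime_dvd_prime_iff_eq hp hq.2.2).1 hpq).symm
  have h0 : primorial n ≠ 0 := (primorial_pos n).ne'
  refine val_eq_one hp h0 (e ▸ Dvd.intro _ rfl) fun h => ?_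
  rw [e, pow_two] at h
  exact hnd ((Nat.mul_dvd_mul_iff_left hp.pos).1 h)

/-- the hyperfactorial -/
lemma val_hyper {p n : ℕ} (hp : p.Prime) (h1 : p ≤ n) (h2 : n < 2 * p) :
    padicValNat p (∏ j ∈ Icc 1 n, j ^ j) = p := by
  haveI : Fact p.Prime := ⟨hp⟩
  have hmem : p ∈ Icc 1 n := Finset.mem_Icc.2 ⟨hp.one_lt.le, h1⟩
  rw [← Finset.mul_prod_erase _ (fun j => j ^ j) hmem]
  have hnd : ¬ p ∣ ∏ j ∈ (Icc 1 n).erase p, j ^ j := by
    intro h
    obtain ⟨q, hq, hpq⟩ := (Prime.dvd_finset_prod_iff hp.prime _).1 h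
    rw [Finset.mem_erase, Finset.mem_Icc] at hq
    obtain ⟨k, hk⟩ := hp.dvd_of_dvd_pow hpq
    rcases Nat.lt_or_ge k 2 with h3 | h3
    · interval_cases k
      · omega
      · exact hq.1 (by omega)
    · have : 2 * p ≤ q := by rw [hk]; nlinarith
      omega
  have h3 : ∏ j ∈ (Icc 1 n).erase p, j ^ j ≠ 0 := by
    intro h
    exact hnd (h ▸ dvd_zero p)
  rw [padicValNat.mul (pow_ne_zero _ hp.ne_zero) h3, padicValNat.eq_zero_of_not_dvd hnd,
    padicValNat.prime_pow, add_zero]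

lemma sum_div (p : ℕ) (hp : 0 < p) (N : ℕ) (hN : N ≤ 3 * p) :
    ∑ j ∈ range N, j / p = (N - p) + (N - 2 * p) := by
  induction N with
  | zero => simp
  | succ N ih =>
    rw [Finset.sum_range_succ, ih (by omega)]
    rcases Nat.lt_or_ge N p with h | h
    · rw [Nat.div_eq_of_lt h]
      omega
    · rcases Nat.lt_or_ge N (2 * p) with h' | h'
      · rw [Nat.div_eq_of_lt_le (by omega : 1 * p ≤ N) (by omega)]
        omega
      · rw [Nat.div_eq_of_lt_le (by omega : 2 * p ≤ N) (by omega)]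
        omega

lemma val_super_sum {p : ℕ} (hp : p.Prime) (n : ℕ) :
    padicValNat p n.superFactorial = ∑ j ∈ range (n + 1), padicValNat p j.factorial := by
  haveI : Fact p.Prime := ⟨hp⟩
  induction n with
  | zero => simp
  | succ n ih =>
    have h0 : n.superFactorial ≠ 0 := by
      rw [← Nat.prod_range_factorial_succ]
      exact Finset.prod_ne_zero_iff.2 fun j _ => Nat.factorial_ne_zero _
    rw [Nat.superFactorial, padicValNat.mul (Nat.factorial_ne_zero _) h0, ih,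
      Finset.sum_range_succ _ (n + 1)]
    ring

/-- the superfactorial `1! 2! ⋯ n!` -/
lemma val_super {p n : ℕ} (hp : p.Prime) (hp3 : 3 ≤ p) (h1 : 2 * p ≤ n) (h2 : n < 3 * p) :
    Odd (padicValNat p n.superFactorial) := by
  rw [val_super_sum hp]
  have h3 : ∑ j ∈ range (n + 1), padicValNat p j.factorial = ∑ j ∈ range (n + 1), j / p := by
    refine Finset.sum_congr rfl fun j hj => val_fact hp ?_
    rw [Finset.mem_range] at hj
    nlinarith
  rw [h3, sum_div p hp.pos (n + 1) (by omega)]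
  have hodd : Odd p := hp.odd_of_ne_two (by omega)
  obtain ⟨k, hk⟩ := hodd
  exact ⟨n - 3 * k - 1, by omega⟩

end val

/-- **Quotients of factorials.** -/
theorem fact_quot {G : ℤ → Prop} (h : Rule G) {u : ℤ} (hu : u ≠ 0) {ε : ℝ} (hε : 0 < ε) :
    ∃ n₀ : ℕ, ∀ n : ℕ, n₀ ≤ n → ∀ a v : ℤ, v * a = u * (n.factorial : ℤ) →
      (∀ p : ℕ, p.Prime → (p : ℤ) ∣ v → (p : ℝ) ≤ (1 - ε) * n) → G a := by
  set θ : ℝ := max (1 - ε) (2 / 3) with hθ
  have h1 : 0 < θ := lt_of_lt_of_le (by norm_num) (le_max_right _ _)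
  have h2 : θ < 1 := max_lt (by linarith) (by norm_num)
  obtain ⟨n₀, hn₀⟩ := lin h h1 h2 (|u| : ℝ)
  refine ⟨n₀, fun n hn a v hva hv => ?_⟩
  have hf : (n.factorial : ℤ) ≠ 0 := by exact_mod_cast Nat.factorial_ne_zero n
  have hne : v * a ≠ 0 := by
    rw [hva]
    exact mul_ne_zero hu hf
  have hv0 : v ≠ 0 := left_ne_zero_of_mul hne
  have ha0 : a ≠ 0 := right_ne_zero_of_mul hne
  refine hn₀ n hn a ha0 fun p hp p1 p2 p3 => ?_
  haveI : Fact p.Prime := ⟨hp⟩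
  rw [one_mul] at p2
  have hpn : p ≤ n := by exact_mod_cast p2
  have hn2 : n < 2 * p := by
    have h4 : (n : ℝ) < 2 * p := by
      have h5 : (2 / 3 : ℝ) * n ≤ θ * n := mul_le_mul_of_nonneg_right (le_max_right _ _) (Nat.cast_nonneg _)
      have h6 : (0 : ℝ) < p := by exact_mod_cast hp.pos
      linarith
    exact_mod_cast h4
  have e1 : padicValInt p (v * a) = 1 := by
    rw [hva, val_mul hp hu p3 hf, padicValInt.of_nat]
    exact val_fact_one hp hpn hn2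
  have e2 : padicValInt p v = 0 := by
    refine padicValInt.eq_zero_of_not_dvd fun hd => ?_
    have h4 := hv p hp hd
    have h5 : (1 - ε) * n ≤ θ * n := mul_le_mul_of_nonneg_right (le_max_left _ _) (Nat.cast_nonneg _)
    linarith
  rw [padicValInt.mul hv0 ha0, e2, zero_add] at e1
  rw [e1]
  exact odd_one

/-- the sequences of natural numbers -/
theorem nat_seq {G : ℤ → Prop} (h : Rule G) {u : ℤ} (hu : u ≠ 0) {θ₁ θ₂ : ℝ} (h1 : 0 < θ₁)
    (h2 : θ₁ < θ₂) (s : ℕ → ℕ) (h0 : ∀ n, s n ≠ 0)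
    (hs : ∀ n p : ℕ, p.Prime → 3 ≤ p → θ₁ * n < p → (p : ℝ) ≤ θ₂ * n → Odd (padicValNat p (s n))) :
    ∃ n₀ : ℕ, ∀ n : ℕ, n₀ ≤ n → G (u * (s n : ℤ)) := by
  obtain ⟨n₀, hn₀⟩ := lin h h1 h2 (max (|u| : ℝ) 3)
  refine ⟨n₀, fun n hn => ?_⟩
  have hsn : (s n : ℤ) ≠ 0 := by exact_mod_cast h0 n
  refine hn₀ n hn _ (mul_ne_zero hu hsn) fun p hp p1 p2 p3 => ?_
  rw [val_mul hp hu ((le_max_left _ _).trans_lt p3) hsn, padicValInt.of_nat]
  refine hs n p hp ?_ p1 p2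
  have : (3 : ℝ) < p := (le_max_right _ _).trans_lt p3
  exact_mod_cast this.le

end Pool.Agent.V8H78.EX
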