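import Pool.Agent.W401.Cheb.Main
import Pool.Agent.W723.SecC.D1b
import Pool.Agent.Cov.PNT

/-!
# Chebotarev's theorem in the windows `(x, (1 + ε) x]` (helper78)
-/

set_option autoImplicit false

open Filter Topology

namespace Pool.Agent.V8H78.EX

/-- the primes of the set `P` in the window `(x, κ x]` -/
noncomputable def win (P : Set ℕ) (κ : ℝ) (x : ℕ) : Set ℕ :=
  {p | p.Prime ∧ p ∈ P ∧ x < p ∧ (p : ℝ) ≤ κ * x}

/-- `P` has at least the proportion `c` of the primes of the windows `(x, κ x]`, for all `κ > 1` and all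
large `x`. -/
def Rich (c : ℝ) (P : Set ℕ) : Prop :=
  ∀ κ : ℝ, 1 < κ → ∃ x₀ : ℕ, ∀ x : ℕ, x₀ ≤ x →
    0 < ((win Set.univ κ x).ncard : ℝ) ∧
      c * ((win Set.univ κ x).ncard : ℝ) ≤ ((win P κ x).ncard : ℝ)

lemma win_finite (P : Set ℕ) (κ : ℝ) (x : ℕ) : (win P κ x).Finite := by
  refine (Set.finite_Iic ⌊κ * x⌋₊).subset ?_
  rintro p ⟨-, -, -, h⟩
  exact Nat.le_floor h

/-- a counting function like that of the primes in windows -/
lemma window_asymp {F : ℕ → ℝ} (hF : Tendsto (fun N : ℕ => F N * Real.log N / N) atTop (𝓝 1))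
    {κ : ℝ} (hκ : 1 < κ) :
    Tendsto (fun n : ℕ => (F ⌊κ * n⌋₊ - F n) * Real.log n / n) atTop (𝓝 (κ - 1)) := by
  have hκ0 : 0 < κ := by linarith
  have hfd : Tendsto (fun n : ℕ => (⌊κ * n⌋₊ : ℝ) / n) atTop (𝓝 κ) :=
    (tendsto_nat_floor_mul_div_atTop hκ0.le).comp tendsto_natCast_atTop_atTop
  have hfa : Tendsto (fun n : ℕ => ⌊κ * n⌋₊) atTop atTop :=
    tendsto_nat_floor_atTop.comp (Tendsto.const_mul_atTop hκ0 tendsto_natCast_atTop_atTop)
  have hlog : Tendsto (fun n : ℕ => Real.log (⌊κ * n⌋₊ : ℝ) / Real.log n) atTop (𝓝 1) := by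
    have h1 := (Real.continuousAt_log hκ0.ne').tendsto.comp hfd
    have h3 : Tendsto (fun n : ℕ => Real.log (n : ℝ)) atTop atTop :=
      Real.tendsto_log_atTop.comp tendsto_natCast_atTop_atTop
    have h4 := (h1.div_atTop h3).add_const 1
    rw [zero_add] at h4
    refine h4.congr' ?_
    filter_upwards [eventually_ge_atTop 2, hfa.eventually_ge_atTop 1] with n hn hf
    have hn1 : (1 : ℝ) < n := by exact_mod_cast hn
    have hlog : Real.log (n : ℝ) ≠ 0 := (Real.log_pos hn1).ne'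
    have hf0 : (⌊κ * n⌋₊ : ℝ) ≠ 0 := by
      have : ⌊κ * (n : ℝ)⌋₊ ≠ 0 := by omega
      exact_mod_cast this
    simp only [Function.comp_apply]
    rw [Real.log_div hf0 (by linarith : (n : ℝ) ≠ 0)]
    field_simp
    ring
  have h1 := (((hF.comp hfa).mul hfd).div hlog one_ne_zero).sub hF
  rw [one_mul, div_one] at h1
  refine h1.congr' ?_
  filter_upwards [eventually_ge_atTop 2, hfa.eventually_ge_atTop 2] with n hn hf
  have hn1 : (1 : ℝ) < n := by exact_mod_cast hn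
  have hf1 : (1 : ℝ) < (⌊κ * n⌋₊ : ℝ) := by exact_mod_cast hf
  have l1 : Real.log (n : ℝ) ≠ 0 := (Real.log_pos hn1).ne'
  have l2 : Real.log (⌊κ * n⌋₊ : ℝ) ≠ 0 := (Real.log_pos hf1).ne'
  have l3 : (n : ℝ) ≠ 0 := by linarith
  have l4 : (⌊κ * n⌋₊ : ℝ) ≠ 0 := by linarith
  simp only [Function.comp_apply, Pi.div_apply]
  field_simp

lemma pi_log : Tendsto (fun N : ℕ => (Nat.primeCounting N : ℝ) * Real.log N / N) atTop (𝓝 1) := by
  have := Pool.Agent.Cov.PNT.pi_tendsto.comp (tendsto_natCast_atTop_atTop (R := ℝ))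
  refine this.congr fun N => ?_
  simp

open Pool.Agent.W401.Cheb Pool.Agent.W723.SecC

lemma cheb_log (L : Type) [Field L] [NumberField L] [IsGalois ℚ L] (g : Gal(L/ℚ)) :
    Tendsto (fun N : ℕ => (∑ p ∈ pr N, (xp L g p : ℝ)) * Real.log N / N) atTop (𝓝 1) := by
  have h3 := (chebotarev L g).mul pi_log
  rw [one_mul] at h3
  refine h3.congr' ?_
  filter_upwards [eventually_ge_atTop 2] with N hN
  have hp : (Nat.primeCounting N : ℝ) ≠ 0 := by
    have : Nat.primeCounting N ≠ 0 := by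
      rw [Ne, Nat.primeCounting_eq_zero_iff]
      omega
    exact_mod_cast this
  field_simp

lemma card_pr (N : ℕ) : ((pr N).card : ℝ) = (Nat.primeCounting N : ℝ) := by
  have h := sum_pr (fun _ => (1 : ℝ)) N
  rw [sum_ind_prime] at h
  rw [← h]
  simp

/-- the number of the primes in a window -/
lemma card_win {κ : ℝ} (hκ : 1 < κ) (x : ℕ) :
    ((win Set.univ κ x).ncard : ℝ) =
      (Nat.primeCounting ⌊κ * x⌋₊ : ℝ) - (Nat.primeCounting x : ℝ) := by
  have hx : x ≤ ⌊κ * (x : ℝ)⌋₊ := Nat.le_floor (by nlinarith [Nat.cast_nonneg (α := ℝ) x])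
  have hsub : pr x ⊆ pr ⌊κ * x⌋₊ := by
    intro p hp
    rw [mem_pr] at hp ⊢
    exact ⟨hp.1.trans hx, hp.2⟩
  have h1 : win Set.univ κ x = (↑(pr ⌊κ * x⌋₊ \ pr x) : Set ℕ) := by
    ext p
    rw [Finset.mem_coe, Finset.mem_sdiff, mem_pr, mem_pr]
    constructor
    · rintro ⟨h1, -, h2, h3⟩
      exact ⟨⟨Nat.le_floor h3, h1⟩, fun h => by omega⟩
    · rintro ⟨⟨h1, h2⟩, h3⟩
      refine ⟨h2, Set.mem_univ _, ?_, ?_⟩
      · by_contra h
        exact h3 ⟨not_lt.1 h, h2⟩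
      · exact (Nat.le_floor_iff (by positivity)).1 h1
  rw [h1, Set.ncard_coe_finset, Finset.cast_card_sdiff hsub, card_pr, card_pr]

/-- **Chebotarev's theorem in windows.** -/
theorem frob_rich (L : Type) [Field L] [NumberField L] [IsGalois ℚ L] (τ : Gal(L/ℚ)) (m : ℕ)
    (hm : 0 < m) : ∃ c : ℝ, 0 < c ∧ Rich c (frobSet L τ m) := by
  obtain ⟨D, hD, hT⟩ := torsor L
  set h : ℝ := (Nat.card Gal(L/ℚ) : ℝ) with hh
  have hpos : 0 < h := by
    rw [hh]; exact_mod_cast Nat.card_pos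
  refine ⟨1 / (2 * h), by positivity, fun κ hκ => ?_⟩
  have h1 := window_asymp (cheb_log L τ) hκ
  have h2 := window_asymp pi_log hκ
  have e1 := h1.eventually (lt_mem_nhds (show (κ - 1) * (2 / 3) < κ - 1 by linarith))
  have e2 := h2.eventually (gt_mem_nhds (show κ - 1 < (κ - 1) * (4 / 3) by linarith))
  have e3 := h2.eventually (lt_mem_nhds (show 0 < κ - 1 by linarith))
  obtain ⟨x₀, hx₀⟩ := eventually_atTop.1 (e1.and (e2.and (e3.and
    ((eventually_ge_atTop 2).and (eventually_ge_atTop (D * m))))))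
  refine ⟨x₀, fun x hx => ?_⟩
  obtain ⟨a1, a2, a3, a4, a5⟩ := hx₀ x hx
  have hx1 : (1 : ℝ) < x := by exact_mod_cast a4
  have hlog : 0 < Real.log (x : ℝ) := Real.log_pos hx1
  have hq : 0 < Real.log (x : ℝ) / x := div_pos hlog (by linarith)
  rw [mul_div_assoc] at a1 a2 a3
  rw [← card_win hκ x] at a2 a3
  have b3 : 0 < ((win Set.univ κ x).ncard : ℝ) := by
    by_contra h0
    have := mul_nonpos_of_nonpos_of_nonneg (not_lt.1 h0) hq.le
    linarith
  refine ⟨b3, ?_⟩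
  -- the sum over the window
  have hxf : x ≤ ⌊κ * (x : ℝ)⌋₊ := Nat.le_floor (by nlinarith)
  have hsub : pr x ⊆ pr ⌊κ * x⌋₊ := by
    intro p hp
    rw [mem_pr] at hp ⊢
    exact ⟨hp.1.trans hxf, hp.2⟩
  have c1 : (∑ p ∈ pr ⌊κ * x⌋₊, (xp L τ p : ℝ)) - ∑ p ∈ pr x, (xp L τ p : ℝ) ≤
      h * ((win (frobSet L τ m) κ x).ncard : ℝ) := by
    rw [← Finset.sum_sdiff hsub, add_sub_cancel_right]
    have hfin := win_finite (frobSet L τ m) κ x
    have e0 : h * ((win (frobSet L τ m) κ x).ncard : ℝ) = ∑ _p ∈ hfin.toFinset, h := by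
      rw [Set.ncard_eq_toFinset_card _ hfin, Finset.sum_const, nsmul_eq_mul, mul_comm]
    rw [e0]
    have c2 : ∑ p ∈ pr ⌊κ * x⌋₊ \ pr x, (xp L τ p : ℝ) =
        ∑ p ∈ (pr ⌊κ * x⌋₊ \ pr x).filter (fun p => xp L τ p ≠ 0), (xp L τ p : ℝ) := by
      rw [Finset.sum_filter]
      refine Finset.sum_congr rfl fun p _ => ?_
      by_cases h0 : xp L τ p = 0
      · rw [if_neg (not_not.2 h0), h0, Nat.cast_zero]
      · rw [if_pos h0]
    have hprop : ∀ p ∈ (pr ⌊κ * x⌋₊ \ pr x).filter (fun p => xp L τ p ≠ 0),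
        p.Prime ∧ x < p ∧ (p : ℝ) ≤ κ * x ∧ ¬ p ∣ D * m := by
      intro p hp
      rw [Finset.mem_filter, Finset.mem_sdiff, mem_pr, mem_pr] at hp
      obtain ⟨⟨⟨p1, p2⟩, p3⟩, p4⟩ := hp
      have p5 : x < p := by
        by_contra h
        exact p3 ⟨not_lt.1 h, p2⟩
      refine ⟨p2, p5, (Nat.le_floor_iff (by positivity)).1 p1, fun hd => ?_⟩
      have := Nat.le_of_dvd (Nat.mul_pos hD hm) hd
      omega
    rw [c2]
    refine (Finset.sum_le_sum (f := fun p => (xp L τ p : ℝ)) (g := fun _ => h) fun p hp => ?_).trans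
      (Finset.sum_le_sum_of_subset_of_nonneg ?_ fun _ _ _ => hpos.le)
    · obtain ⟨p2, -, -, p6⟩ := hprop p hp
      haveI : Fact p.Prime := ⟨p2⟩
      rw [hh]
      exact_mod_cast xp_le L τ p p2 (hT p fun hd => p6 (hd.mul_right m))
    · intro p hp
      obtain ⟨p2, p3, p5, p6⟩ := hprop p hp
      rw [Set.Finite.mem_toFinset]
      exact ⟨p2, ⟨p2, fun hd => p6 (hd.mul_left D), (Finset.mem_filter.1 hp).2⟩, p3, p5⟩
  have c3 : (κ - 1) * (2 / 3) < h * ((win (frobSet L τ m) κ x).ncard : ℝ) *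
      (Real.log (x : ℝ) / x) := a1.trans_le (mul_le_mul_of_nonneg_right c1 hq.le)
  have c4 : ((win Set.univ κ x).ncard : ℝ) * (Real.log (x : ℝ) / x) * (1 / 2) <
      h * ((win (frobSet L τ m) κ x).ncard : ℝ) * (Real.log (x : ℝ) / x) := by linarith
  have c5 : ((win Set.univ κ x).ncard : ℝ) * (1 / 2) <
      h * ((win (frobSet L τ m) κ x).ncard : ℝ) := by
    refine lt_of_mul_lt_mul_right ?_ hq.le
    linarith
  rw [div_mul_eq_mul_div, one_mul, div_le_iff₀ (by positivity)]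
  linarith

end Pool.Agent.V8H78.EX
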